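import Pool.Agent.N492.LS.Ort

set_option autoImplicit false

namespace Pool.Agent.U506.LS

open MeasureTheory Pool.Agent.N303.LS Pool.Agent.N492.LS
open scoped ENNReal FourierTransform RealInnerProductSpace SchwartzMap ComplexConjugate

theorem tp_cs {d : ℕ} (A : Finset (Fin d → ℤ)) (c : (Fin d → ℤ) → ℂ) (x : E d) {V : ℕ}
    (hV : A.card ≤ V) :
    ‖tp A c x‖ₑ ^ (2 : ℝ) ≤ ENNReal.ofReal (V * ∑ m ∈ A, ‖c m‖ ^ 2) := by
  rw [en2]
  refine ENNReal.ofReal_le_ofReal ?_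
  have h1 : ‖tp A c x‖ ≤ ∑ m ∈ A, ‖c m‖ := by
    unfold tp
    refine (norm_sum_le _ _).trans (le_of_eq ?_)
    refine Finset.sum_congr rfl fun m _ => ?_
    rw [norm_mul, norm_e, mul_one]
  have h2 : (∑ m ∈ A, ‖c m‖) ^ 2 ≤ A.card * ∑ m ∈ A, ‖c m‖ ^ 2 := by
    have := sq_sum_le_card_mul_sum_sq (s := A) (f := fun m => ‖c m‖)
    exact this
  have h3 : (A.card : ℝ) ≤ V := by exact_mod_cast hV
  have h4 : 0 ≤ ∑ m ∈ A, ‖c m‖ ^ 2 := Finset.sum_nonneg fun _ _ => by positivity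
  calc ‖tp A c x‖ ^ 2 ≤ (∑ m ∈ A, ‖c m‖) ^ 2 := pow_le_pow_left₀ (norm_nonneg _) h1 2
    _ ≤ _ := h2
    _ ≤ _ := mul_le_mul_of_nonneg_right h3 h4

theorem t_car : S_CAR := by
  intro d M K hKs
  obtain ⟨r, hr⟩ : ∃ r : ℕ, ∀ y : E d, K y ≠ 0 → ∀ j, |y j| ≤ r := by
    obtain ⟨R, hR⟩ := hKs.isCompact.isBounded.exists_norm_le
    refine ⟨⌈R⌉₊, fun y hy j => ?_⟩
    have h1 := hR y (subset_tsupport _ hy)
    have h2 : |y j| ≤ ‖y‖ := PiLp.norm_apply_le y j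
    exact h2.trans (h1.trans (Nat.le_ceil R))
  have hx : ∀ x u : E d, K (x - u) ≠ 0 → u ∈ cu (r + 1) x := by
    intro x u hu j
    have h1 := hr _ hu j
    have h3 : (x - u) j = x j - u j := rfl
    rw [h3, abs_sub_comm] at h1
    push_cast
    linarith
  set n : ℕ := r + 1 with hn
  have hn1 : 1 ≤ n := by omega
  set κ : ℝ≥0∞ := ∫⁻ ξ : E d, ‖𝓕 (K : E d → ℂ) ξ‖ₑ with hκ
  have hκt : κ ≠ ⊤ := (int_fK K).hasFiniteIntegral.ne
  set c2 : ℝ := (1 + d * (n : ℝ) ^ 2) ^ M with hc2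
  have hc2p : 0 < c2 := by positivity
  refine ⟨κ.toReal ^ 2 * ((2 * n : ℝ) ^ d * c2) + 1, by positivity, ?_⟩
  intro ι _ A V hA hV F hF x
  have hc := cont_inv hF
  -- the energy in the cube
  have hen : ∫⁻ u in cu n x, ‖inv F u‖ₑ ^ (2 : ℝ) ≤ ENNReal.ofReal c2 * nrg M (inv F) x := by
    unfold nrg
    rw [← lintegral_const_mul' _ _ ENNReal.ofReal_ne_top]
    refine (setLIntegral_mono' (cu_meas n x) fun u hu => ?_).trans (setLIntegral_le_lintegral _ _)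
    have h1 := cu_norm hu
    have h2 : 1 ≤ c2 * W M (u - x) := by
      unfold W
      rw [← div_eq_mul_inv, one_le_div (by positivity)]
      exact pow_le_pow_left₀ (by positivity) (by linarith) M
    calc ‖inv F u‖ₑ ^ (2 : ℝ) = ‖inv F u‖ₑ ^ (2 : ℝ) * ENNReal.ofReal 1 := by simp
      _ ≤ ‖inv F u‖ₑ ^ (2 : ℝ) * ENNReal.ofReal (c2 * W M (u - x)) := by gcongr
      _ = _ := by
        rw [ENNReal.ofReal_mul hc2p.le]
        ring
  have h1 : ∀ i, ‖inv (fun ξ => psi K (A i) ξ * F ξ) x‖ₑ ^ (2 : ℝ) ≤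
      κ * ∫⁻ ξ : E d, ‖𝓕 (K : E d → ℂ) ξ‖ₑ *
        ENNReal.ofReal (V * ∑ m ∈ A i, ‖bt n x (inv F) (ξ + pt m)‖ ^ 2) := by
    intro i
    refine (pw K hF n x x (hx x) (A i)).trans ?_
    refine mul_le_mul_right (lintegral_mono fun ξ => ?_) _
    exact mul_le_mul_right (tp_cs (A i) _ x (hV i)) _
  refine (Finset.sum_le_sum fun i _ => h1 i).trans ?_
  rw [← Finset.mul_sum]
  have h3 : ∀ i ∈ (Finset.univ : Finset ι), Measurable fun ξ : E d => ‖𝓕 (K : E d → ℂ) ξ‖ₑ *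
      ENNReal.ofReal (V * ∑ m ∈ A i, ‖bt n x (inv F) (ξ + pt m)‖ ^ 2) := by
    intro i _
    refine (fK_meas K).mul (ENNReal.measurable_ofReal.comp ?_)
    exact (continuous_const.mul (continuous_finsetSum _ fun m _ =>
      (((cont_bt n x hc).comp
        (continuous_id.add continuous_const)).norm.pow 2))).measurable
  rw [← lintegral_finsetSum _ h3]
  have h4 : ∀ ξ : E d, ∑ i, ‖𝓕 (K : E d → ℂ) ξ‖ₑ *
      ENNReal.ofReal (V * ∑ m ∈ A i, ‖bt n x (inv F) (ξ + pt m)‖ ^ 2) ≤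
      ‖𝓕 (K : E d → ℂ) ξ‖ₑ * (ENNReal.ofReal (V * (2 * n : ℝ) ^ d) *
        ∫⁻ u in cu n x, ‖inv F u‖ₑ ^ (2 : ℝ)) := by
    intro ξ
    rw [← Finset.mul_sum]
    refine mul_le_mul_right ?_ _
    classical
    rw [lint_sq n x hc, ← ENNReal.ofReal_mul (by positivity),
      ← ENNReal.ofReal_sum_of_nonneg fun i _ => by positivity]
    refine ENNReal.ofReal_le_ofReal ?_
    rw [← Finset.mul_sum, mul_assoc]
    refine mul_le_mul_of_nonneg_left ?_ (by positivity)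
    have h5 : ∑ i, ∑ m ∈ A i, ‖bt n x (inv F) (ξ + pt m)‖ ^ 2 =
        ∑ m ∈ Finset.univ.biUnion A, ‖bt n x (inv F) (ξ + pt m)‖ ^ 2 := by
      rw [Finset.sum_biUnion]
      intro i _ j _ hij
      exact hA i j hij
    rw [h5]
    exact bessel_bt hn1 x hc ξ _
  refine (mul_le_mul_right (lintegral_mono h4) _).trans ?_
  rw [lintegral_mul_const _ (fK_meas K)]
  calc κ * (κ * (ENNReal.ofReal (V * (2 * n : ℝ) ^ d) * ∫⁻ u in cu n x, ‖inv F u‖ₑ ^ (2 : ℝ)))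
      ≤ κ * (κ * (ENNReal.ofReal (V * (2 * n : ℝ) ^ d) *
        (ENNReal.ofReal c2 * nrg M (inv F) x))) := by gcongr
    _ = (κ * κ * (ENNReal.ofReal (V * (2 * n : ℝ) ^ d) * ENNReal.ofReal c2)) *
        nrg M (inv F) x := by ring
    _ ≤ _ := by
      gcongr
      rw [← ENNReal.ofReal_toReal hκt, ← ENNReal.ofReal_mul (by positivity),
        ← ENNReal.ofReal_mul (by positivity), ← ENNReal.ofReal_mul (by positivity)]
      rw [ENNReal.toReal_ofReal ENNReal.toReal_nonneg]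
      refine ENNReal.ofReal_le_ofReal ?_
      have hV0 : (0 : ℝ) ≤ V := Nat.cast_nonneg V
      nlinarith

end Pool.Agent.U506.LS
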