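import Pool.Agent.N303.LS.Stm
import Pool.Agent.Helper623_LS.Khin

set_option autoImplicit false

namespace Pool.Agent.U506.LS

open MeasureTheory Pool.Agent.N303.LS
open scoped ENNReal

theorem t_khi : S_KHI := by
  intro p hp
  obtain ⟨C, hC, h⟩ := Pool.Agent.Helper623_LS.khin_upper p (by linarith)
  refine ⟨C, by linarith, ?_⟩
  intro ι _ _ a
  set N := Fintype.card ι with hN
  let e : ι ≃ Fin N := Fintype.equivFin ι
  have h1 := h N ℂ (fun k => a (e.symm k))
  have h2 : ∑ k : Fin N, ‖a (e.symm k)‖ ^ 2 = ∑ i, ‖a i‖ ^ 2 :=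
    e.symm.sum_comp (fun i => ‖a i‖ ^ 2)
  rw [h2] at h1
  have h3 : Pool.Agent.Helper623_LS.avg (fun ε : Fin N → Bool =>
      ‖∑ k, Pool.Agent.Helper623_LS.sg (ε k) • a (e.symm k)‖ ^ p) =
      (∑ ε : ι → Bool, ‖∑ i, (if ε i then a i else - a i)‖ ^ p) / 2 ^ N := by
    unfold Pool.Agent.Helper623_LS.avg
    congr 1
    have h4 : ∀ ε : ι → Bool, ‖∑ i, (if ε i then a i else - a i)‖ ^ p =
        (fun ε' : Fin N → Bool => ‖∑ k, Pool.Agent.Helper623_LS.sg (ε' k) • a (e.symm k)‖ ^ p)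
          ((Equiv.arrowCongr e (Equiv.refl Bool)) ε) := by
      intro ε
      simp only
      congr 2
      rw [← e.symm.sum_comp (fun i => if ε i then a i else - a i)]
      refine Finset.sum_congr rfl fun k _ => ?_
      simp only [Equiv.arrowCongr_apply, Equiv.coe_refl, Function.comp_apply, id]
      unfold Pool.Agent.Helper623_LS.sg
      split_ifs <;> simp
    rw [Finset.sum_congr rfl fun ε _ => h4 ε]
    exact (Equiv.sum_comp (Equiv.arrowCongr e (Equiv.refl Bool)) _).symm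
  rw [h3, div_le_iff₀ (by positivity)] at h1
  calc _ ≤ _ := h1
    _ = _ := by ring

end Pool.Agent.U506.LS
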