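import Pool.Agent.N492.LS.Ort
import Pool.Agent.N933.LS.YH

set_option autoImplicit false

namespace Pool.Agent.U506.LS

open MeasureTheory Pool.Agent.N303.LS Pool.Agent.N492.LS
open scoped ENNReal FourierTransform RealInnerProductSpace SchwartzMap ComplexConjugate

theorem nrg_slow {d : ℕ} (M : ℕ) (g : E d → ℂ) (x z : E d) :
    nrg M g z ≤ ENNReal.ofReal ((2 * (1 + ‖x - z‖ ^ 2)) ^ M) * nrg M g x := by
  unfold nrg
  rw [← lintegral_const_mul' _ _ ENNReal.ofReal_ne_top]
  refine lintegral_mono fun y => ?_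
  have h1 := peetre (d := d) M (x := z) (y := x) (D := ‖x - z‖ ^ 2) (by rw [norm_sub_rev]) y
  have h2 : ∀ u v : E d, W M (u - v) = W M (v - u) := by
    intro u v
    unfold W
    rw [norm_sub_rev]
  rw [h2 z y, h2 x y] at h1
  calc ‖g y‖ₑ ^ (2 : ℝ) * ENNReal.ofReal (W M (y - z))
      ≤ ‖g y‖ₑ ^ (2 : ℝ) * ENNReal.ofReal ((2 * (1 + ‖x - z‖ ^ 2)) ^ M * W M (y - x)) := by
        gcongr
    _ = _ := by
        rw [ENNReal.ofReal_mul (by positivity)]
        ring

theorem t_pee : S_PEE := by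
  intro d M hd q hq
  set Q : ℕ := ⌈(M : ℝ) * q⌉₊ with hQ
  have hQ1 : (M : ℝ) * q ≤ Q := Nat.le_ceil _
  set M' : ℕ := Q + (d + 1) with hM'
  -- powers
  have hpow : ∀ (g : E d → ℂ) (x z : E d), nrg M g z ^ q ≤
      ENNReal.ofReal ((2 * (1 + ‖x - z‖ ^ 2)) ^ Q) * nrg M g x ^ q := by
    intro g x z
    refine (ENNReal.rpow_le_rpow (nrg_slow M g x z) hq).trans ?_
    rw [ENNReal.mul_rpow_of_nonneg _ _ hq]
    gcongr
    rw [ENNReal.ofReal_rpow_of_nonneg (by positivity) hq]
    refine ENNReal.ofReal_le_ofReal ?_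
    have h1 : (1 : ℝ) ≤ 2 * (1 + ‖x - z‖ ^ 2) := by nlinarith [sq_nonneg ‖x - z‖]
    have e1 := Real.rpow_le_rpow_of_exponent_le h1 hQ1
    rw [Real.rpow_natCast] at e1
    rw [← Real.rpow_natCast (2 * (1 + ‖x - z‖ ^ 2)) M, ← Real.rpow_mul (by positivity)]
    exact e1
  set T : ℝ≥0∞ := ∫⁻ x : E d, ENNReal.ofReal (W (d + 1) x) with hT
  have hTf : T < ⊤ := Pool.Agent.N933.LS.fin_W (by omega)
  have hb : (0 : ℝ≥0∞) < volume (Metric.ball (0 : E d) 1) :=
    Metric.measure_ball_pos volume _ one_pos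
  have hbt : volume (Metric.ball (0 : E d) 1) < ⊤ := measure_ball_lt_top
  set v : ℝ := (volume (Metric.ball (0 : E d) 1)).toReal with hv
  have hv0 : 0 < v := ENNReal.toReal_pos hb.ne' hbt.ne
  set C : ℝ := (2 : ℝ) ^ Q * T.toReal + (4 : ℝ) ^ Q * 2 ^ M' / v + 1 with hC
  refine ⟨M', C, by omega, by positivity, fun g x => ⟨?_, ?_⟩⟩
  · -- lower bound
    have h1 : ∀ z ∈ Metric.ball x 1, ENNReal.ofReal ((4 : ℝ) ^ Q)⁻¹ * nrg M g x ^ q *
        ENNReal.ofReal ((2 : ℝ) ^ M')⁻¹ ≤ nrg M g z ^ q * ENNReal.ofReal (W M' (x - z)) := by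
      intro z hz
      have h2 : ‖x - z‖ ^ 2 ≤ 1 := by
        rw [Metric.mem_ball, dist_comm, dist_eq_norm] at hz
        nlinarith [norm_nonneg (x - z)]
      have h3 := hpow g z x
      rw [norm_sub_rev] at h3
      have h4 : nrg M g x ^ q ≤ ENNReal.ofReal ((4 : ℝ) ^ Q) * nrg M g z ^ q := by
        refine h3.trans ?_
        gcongr
        linarith
      have h5 : ENNReal.ofReal ((4 : ℝ) ^ Q)⁻¹ * nrg M g x ^ q ≤ nrg M g z ^ q := by
        calc _ ≤ ENNReal.ofReal ((4 : ℝ) ^ Q)⁻¹ * (ENNReal.ofReal ((4 : ℝ) ^ Q) *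
              nrg M g z ^ q) := by gcongr
          _ = _ := by
            rw [← mul_assoc, ← ENNReal.ofReal_mul (by positivity),
              inv_mul_cancel₀ (by positivity), ENNReal.ofReal_one, one_mul]
      refine mul_le_mul' h5 (ENNReal.ofReal_le_ofReal ?_)
      unfold W
      refine inv_anti₀ (by positivity) (pow_le_pow_left₀ (by positivity) (by linarith) _)
    have h6 : ENNReal.ofReal ((4 : ℝ) ^ Q)⁻¹ * nrg M g x ^ q * ENNReal.ofReal ((2 : ℝ) ^ M')⁻¹ *
        ENNReal.ofReal v ≤ ∫⁻ z : E d, nrg M g z ^ q * ENNReal.ofReal (W M' (x - z)) := by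
      calc _ = ∫⁻ _ in Metric.ball x 1, ENNReal.ofReal ((4 : ℝ) ^ Q)⁻¹ * nrg M g x ^ q *
            ENNReal.ofReal ((2 : ℝ) ^ M')⁻¹ := by
            rw [setLIntegral_const, hv, ENNReal.ofReal_toReal hbt.ne]
            congr 1
            exact (Measure.addHaar_ball_center volume x 1).symm
        _ ≤ ∫⁻ z in Metric.ball x 1, nrg M g z ^ q * ENNReal.ofReal (W M' (x - z)) :=
            setLIntegral_mono' measurableSet_ball h1
        _ ≤ _ := setLIntegral_le_lintegral _ _
    calc nrg M g x ^ q = ENNReal.ofReal ((4 : ℝ) ^ Q * 2 ^ M' / v) *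
          (ENNReal.ofReal ((4 : ℝ) ^ Q)⁻¹ * nrg M g x ^ q * ENNReal.ofReal ((2 : ℝ) ^ M')⁻¹ *
            ENNReal.ofReal v) := by
          have e1 : ENNReal.ofReal ((4 : ℝ) ^ Q * 2 ^ M' / v) *
            (ENNReal.ofReal ((4 : ℝ) ^ Q)⁻¹ * nrg M g x ^ q * ENNReal.ofReal ((2 : ℝ) ^ M')⁻¹ *
              ENNReal.ofReal v) = (ENNReal.ofReal ((4 : ℝ) ^ Q * 2 ^ M' / v) *
                ENNReal.ofReal ((4 : ℝ) ^ Q)⁻¹ * ENNReal.ofReal ((2 : ℝ) ^ M')⁻¹ *
                ENNReal.ofReal v) * nrg M g x ^ q := by ring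
          rw [e1, ← ENNReal.ofReal_mul (by positivity), ← ENNReal.ofReal_mul (by positivity),
            ← ENNReal.ofReal_mul (by positivity)]
          have e2 : (4 : ℝ) ^ Q * 2 ^ M' / v * ((4 : ℝ) ^ Q)⁻¹ * ((2 : ℝ) ^ M')⁻¹ * v = 1 := by
            field_simp
          rw [e2, ENNReal.ofReal_one, one_mul]
      _ ≤ ENNReal.ofReal C * _ := by
          refine mul_le_mul' (ENNReal.ofReal_le_ofReal ?_) h6
          have : 0 ≤ (2 : ℝ) ^ Q * T.toReal := by positivity
          linarith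
  · -- upper bound
    calc ∫⁻ z : E d, nrg M g z ^ q * ENNReal.ofReal (W M' (x - z))
        ≤ ∫⁻ z : E d, (ENNReal.ofReal ((2 : ℝ) ^ Q) * nrg M g x ^ q) *
          ENNReal.ofReal (W (d + 1) (x - z)) := by
          refine lintegral_mono fun z => ?_
          have h1 := hpow g x z
          calc nrg M g z ^ q * ENNReal.ofReal (W M' (x - z))
              ≤ (ENNReal.ofReal ((2 * (1 + ‖x - z‖ ^ 2)) ^ Q) * nrg M g x ^ q) *
                ENNReal.ofReal (W M' (x - z)) := by gcongr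
            _ = nrg M g x ^ q * (ENNReal.ofReal ((2 * (1 + ‖x - z‖ ^ 2)) ^ Q) *
                ENNReal.ofReal (W M' (x - z))) := by ring
            _ = _ := by
                rw [← ENNReal.ofReal_mul (by positivity)]
                have e1 : (2 * (1 + ‖x - z‖ ^ 2)) ^ Q * W M' (x - z) =
                    2 ^ Q * W (d + 1) (x - z) := by
                  unfold W
                  rw [hM', mul_pow, pow_add]
                  field_simp
                rw [e1, ENNReal.ofReal_mul (by positivity)]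
                ring
      _ = (ENNReal.ofReal ((2 : ℝ) ^ Q) * nrg M g x ^ q) * T := by
          have hm : Measurable fun z : E d => ENNReal.ofReal (W (d + 1) (x - z)) :=
            ENNReal.measurable_ofReal.comp
              ((cont_W (d + 1)).measurable.comp (measurable_const.sub measurable_id))
          rw [lintegral_const_mul _ hm,
            lintegral_sub_left_eq_self (fun y => ENNReal.ofReal (W (d + 1) y)) x]
      _ ≤ _ := by
          calc (ENNReal.ofReal ((2 : ℝ) ^ Q) * nrg M g x ^ q) * T =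
              ENNReal.ofReal ((2 : ℝ) ^ Q * T.toReal) * nrg M g x ^ q := by
                rw [ENNReal.ofReal_mul (by positivity), ENNReal.ofReal_toReal hTf.ne]
                ring
            _ ≤ _ := by
                gcongr
                have : 0 ≤ (4 : ℝ) ^ Q * 2 ^ M' / v := by positivity
                linarith

end Pool.Agent.U506.LS
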