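import Pool.Agent.N303.LS.Fin2
import Pool.Agent.N545.LS.SQ
import Pool.Agent.N655.LS.EN
import Pool.Agent.N362.LS.ENA
import Pool.Agent.N914.LS.ENB
import Pool.Agent.N558.LS.MUL
import Pool.Agent.N413.LS.BES
import Pool.Agent.U506.LS.Khi
import Pool.Agent.U506.LS.Car
import Pool.Agent.U506.LS.Pee

/-!
# Local smoothing for blocks and random signs: assembly

Project LS of helper303 (files `N303/LS`), with the packages of helpers 362, 413, 492, 545, 558, 655,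
914, 933; `KHI`, `CAR`, `PEE` and this file: helper506.
-/

set_option autoImplicit false

namespace Pool.Agent.U506.LS

open MeasureTheory Pool.Agent.N303.LS
open scoped ENNReal FourierTransform RealInnerProductSpace SchwartzMap

theorem sq : S_SQ :=
  Pool.Agent.N303.LS.t_sq
    (Pool.Agent.N655.LS.t_en Pool.Agent.N362.LS.t_ena Pool.Agent.N303.LS.t_enb)
    Pool.Agent.N492.LS.t_ort t_car t_pee Pool.Agent.N933.LS.t_yh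

theorem sbp : S_BP := bp Pool.Agent.N558.LS.t_mul Pool.Agent.N413.LSBES.t_bes

/-- the solution with data `m(D) u₀`, `m(D) u₁` -/
noncomputable def sol {d : ℕ} (m : E d → ℂ) (F₀ F₁ : E d → ℂ) (t : ℝ) (x : E d) : ℂ :=
  inv (fun ξ => m ξ * (cs t ξ * F₀ ξ + sn t ξ * F₁ ξ)) x

/-- Sobolev norms -/
noncomputable def sob {d : ℕ} (a p : ℝ) (f : 𝓢(E d, ℂ)) : ℝ≥0∞ :=
  ∫⁻ x : E d, ‖inv (fun ξ => bes a ξ * 𝓕 (f : E d → ℂ) ξ) x‖ₑ ^ p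

/-- `u₁ = g₀ + ∑ ∂_j g_j` -/
def IsD {d : ℕ} (u₁ g₀ : 𝓢(E d, ℂ)) (g : Fin d → 𝓢(E d, ℂ)) : Prop :=
  ∀ x, u₁ x = g₀ x + ∑ j, lineDeriv ℝ (g j) x (EuclideanSpace.single j (1 : ℝ))

theorem sob_gen (d : ℕ) (p s : ℝ) (hp : 2 ≤ p) (hs : 0 < s) :
    ∃ D : ℝ, 0 < D ∧ ∀ u₀ u₁ : 𝓢(E d, ℂ), ∃ (g₀ : 𝓢(E d, ℂ)) (g : Fin d → 𝓢(E d, ℂ)),
      IsD u₁ g₀ g ∧ (∫⁻ x : E d, ‖u₀ x‖ₑ ^ p) + (∫⁻ x : E d, ‖g₀ x‖ₑ ^ p) +
        ∑ j, ∫⁻ x : E d, ‖g j x‖ₑ ^ p ≤ ENNReal.ofReal D * (sob s p u₀ + sob (s - 1) p u₁) := by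
  have hBP := sbp
  obtain ⟨C0, hC0, b0⟩ := (hBP d s p (by linarith)).1 hs
  obtain ⟨C1, hC1, b1⟩ := (hBP d (1 + s) p (by linarith)).1 (by linarith)
  choose C2 hC2 b2 using (hBP d (1 + s) p (by linarith)).2 (by linarith)
  set D : ℝ := C0 + C1 + ∑ j, C2 j with hD
  have hsum : 0 ≤ ∑ j, C2 j := Finset.sum_nonneg fun j _ => (hC2 j).le
  have hDpos : 0 < D := by positivity
  refine ⟨D, hDpos, ?_⟩
  intro u₀ u₁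
  obtain ⟨F₀, hF0, hF0x⟩ := mult (bes s) (bes_tg s) u₀
  obtain ⟨F₁, hF1, hF1x⟩ := mult (bes (s - 1)) (bes_tg (s - 1)) u₁
  obtain ⟨g₀, hg0, hg0x⟩ := mult (bes (-(1 + s))) (bes_tg _) F₁
  have hj : ∀ j : Fin d, ∃ h : 𝓢(E d, ℂ), (∀ ξ, 𝓕 (h : E d → ℂ) ξ =
      (((2 * Real.pi * ξ j : ℝ) : ℂ) * Complex.I * bes (-(1 + s)) ξ) * 𝓕 (F₁ : E d → ℂ) ξ) ∧
      ∀ x, h x = inv (fun ξ => (((2 * Real.pi * ξ j : ℝ) : ℂ) * Complex.I * bes (-(1 + s)) ξ) *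
        𝓕 (F₁ : E d → ℂ) ξ) x := fun j =>
    mult (fun ξ => ((2 * Real.pi * ξ j : ℝ) : ℂ) * Complex.I * bes (-(1 + s)) ξ)
      ((coord_tg j).mul (bes_tg _)) F₁
  choose G hG hGx using hj
  -- `u₁ = g₀ - ∑ ∂_j G_j`
  have e1 : ∀ ξ, 𝓕 (u₁ : E d → ℂ) ξ = 𝓕 (g₀ : E d → ℂ) ξ +
      ∑ j, ((2 * Real.pi * ξ j : ℝ) : ℂ) * Complex.I * 𝓕 ((-(G j) : 𝓢(E d, ℂ)) : E d → ℂ) ξ := by
    intro ξ
    have n1 : ∀ j, 𝓕 ((-(G j) : 𝓢(E d, ℂ)) : E d → ℂ) ξ = - 𝓕 (G j : E d → ℂ) ξ := by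
      intro j
      rw [← SchwartzMap.fourier_coe, ← SchwartzMap.fourier_coe, FourierTransform.fourier_neg]
      rfl
    simp only [n1, hG, hg0, hF1]
    have n2 : bes (-(1 + s)) ξ * (bes (s - 1) ξ * 𝓕 (u₁ : E d → ℂ) ξ) =
        bes (-2) ξ * 𝓕 (u₁ : E d → ℂ) ξ := by
      rw [← mul_assoc, bes_mul]
      congr 2
      ring
    have n3 : ∀ j : Fin d, ((2 * Real.pi * ξ j : ℝ) : ℂ) * Complex.I *
        -((((2 * Real.pi * ξ j : ℝ) : ℂ) * Complex.I * bes (-(1 + s)) ξ) *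
          (bes (s - 1) ξ * 𝓕 (u₁ : E d → ℂ) ξ)) =
        ((4 * Real.pi ^ 2 * (ξ j) ^ 2 : ℝ) : ℂ) * (bes (-2) ξ * 𝓕 (u₁ : E d → ℂ) ξ) := by
      intro j
      rw [← n2]
      have hI := Complex.I_mul_I
      push_cast
      linear_combination (-(4 * (Real.pi : ℂ) ^ 2 * (ξ j : ℂ) ^ 2) * (bes (-(1 + s)) ξ *
        (bes (s - 1) ξ * 𝓕 (u₁ : E d → ℂ) ξ))) * hI
    simp only [n3]
    rw [n2, ← Finset.sum_mul]
    have n4 : (1 : ℂ) + ∑ j, ((4 * Real.pi ^ 2 * (ξ j) ^ 2 : ℝ) : ℂ) = bes 2 ξ := by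
      rw [bes_two, ← Complex.ofReal_sum, ← Complex.ofReal_one, ← Complex.ofReal_add]
      congr 2
      rw [EuclideanSpace.norm_sq_eq, Finset.mul_sum]
      refine Finset.sum_congr rfl fun j _ => ?_
      rw [Real.norm_eq_abs, sq_abs]
    have n5 : bes 2 ξ * bes (-2) ξ = 1 := by
      rw [bes_mul]
      norm_num [bes_zero]
    linear_combination (-(bes (-2) ξ * 𝓕 (u₁ : E d → ℂ) ξ)) * n4 - (𝓕 (u₁ : E d → ℂ) ξ) * n5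
  have e2 : IsD u₁ g₀ (fun j => -(G j)) := by
    set f' : 𝓢(E d, ℂ) := g₀ + ∑ j, LineDeriv.lineDerivOp (EuclideanSpace.single j (1 : ℝ)) (-(G j))
      with hf'
    have q1 : ∀ x, f' x = g₀ x + ∑ j, lineDeriv ℝ ((-(G j) : 𝓢(E d, ℂ)) : E d → ℂ) x
        (EuclideanSpace.single j (1 : ℝ)) := by
      intro x
      exact sum_line g₀ (fun j => -(G j)) x
    have q2 := fourier_gen f' g₀ (fun j => -(G j)) q1
    have q3 : u₁ = f' := four_inj _ _ fun ξ => by rw [e1 ξ, q2 ξ]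
    rw [q3]
    exact q1
  have m0 : ∫⁻ x : E d, ‖u₀ x‖ₑ ^ p ≤ ENNReal.ofReal C0 * ∫⁻ x : E d, ‖F₀ x‖ₑ ^ p := by
    obtain ⟨u', hu', hu'x⟩ := mult (bes (-s)) (bes_tg _) F₀
    have q : u₀ = u' := four_inj _ _ fun ξ => by
      rw [hu' ξ, hF0 ξ, ← mul_assoc, bes_mul, neg_add_cancel, bes_zero, one_mul]
    rw [q]
    simp only [hu'x]
    exact b0 F₀
  have m1 : ∫⁻ x : E d, ‖g₀ x‖ₑ ^ p ≤ ENNReal.ofReal C1 * ∫⁻ x : E d, ‖F₁ x‖ₑ ^ p := by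
    simp only [hg0x]
    exact b1 F₁
  have m2 : ∀ j, ∫⁻ x : E d, ‖(-(G j) : 𝓢(E d, ℂ)) x‖ₑ ^ p ≤
      ENNReal.ofReal (C2 j) * ∫⁻ x : E d, ‖F₁ x‖ₑ ^ p := by
    intro j
    have m3 : ∀ x, ‖(-(G j) : 𝓢(E d, ℂ)) x‖ₑ = ‖G j x‖ₑ := fun x => by
      rw [neg_apply, enorm_neg]
    simp only [m3, hGx]
    exact b2 j F₁
  refine ⟨g₀, fun j => -(G j), e2, ?_⟩
  unfold sob
  simp only [← hF0x, ← hF1x]
  set X := ∫⁻ x : E d, ‖F₀ x‖ₑ ^ p with hX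
  set Y := ∫⁻ x : E d, ‖F₁ x‖ₑ ^ p with hY
  calc _ ≤ ENNReal.ofReal C0 * X + ENNReal.ofReal C1 * Y + ∑ j, ENNReal.ofReal (C2 j) * Y :=
        add_le_add (add_le_add m0 m1) (Finset.sum_le_sum fun j _ => m2 j)
    _ ≤ ENNReal.ofReal C0 * (X + Y) + ENNReal.ofReal C1 * (X + Y) +
        ∑ j, ENNReal.ofReal (C2 j) * (X + Y) := by
        gcongr
        · exact le_self_add
        · exact le_add_self
        · exact le_add_self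
    _ = ENNReal.ofReal D * (X + Y) := by
        rw [← Finset.sum_mul, ← add_mul, ← add_mul, hD, ENNReal.ofReal_add (by positivity) hsum,
          ENNReal.ofReal_add hC0.le hC1.le, ENNReal.ofReal_sum_of_nonneg fun j _ => (hC2 j).le]

/-- the piece of a solution -/
theorem sol_eq {d : ℕ} (m : E d → ℂ) (K : 𝓢(E d, ℂ)) (A : Finset (Fin d → ℤ)) (hm : m = psi K A)
    (f₀ f₁ g₀ : 𝓢(E d, ℂ)) (g : Fin d → 𝓢(E d, ℂ))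
    (hf : ∀ ξ, 𝓕 (f₁ : E d → ℂ) ξ = 𝓕 (g₀ : E d → ℂ) ξ +
      ∑ j, ((2 * Real.pi * ξ j : ℝ) : ℂ) * Complex.I * 𝓕 (g j : E d → ℂ) ξ)
    (t : ℝ) (h0 : 0 ≤ t) (h2 : t ≤ 2) (x : E d) :
    sol m (𝓕 (f₀ : E d → ℂ)) (𝓕 (f₁ : E d → ℂ)) t x =
      ∑ k : Fin d ⊕ Bool, inv (fun ξ => psi K A ξ * (sym k t ξ *
        𝓕 (gen f₀ g₀ g k : E d → ℂ) ξ)) x := by
  have h := wave_eq K (fun _ : Unit => A) (fun _ => true) f₀ f₁ g₀ g hf t h0 h2 x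
  simp only [Finset.univ_unique, Finset.sum_singleton, if_true] at h
  rw [← h, hm]
  unfold sol wave rnd
  congr 1
  funext ξ
  simp only [Finset.univ_unique, Finset.sum_singleton, if_true]
  ring

/-- the square function of the blocks -/
theorem sqfun (d : ℕ) (p : ℝ) (hp : 2 ≤ p) (K : 𝓢(E d, ℂ))
    (hc : HasCompactSupport (K : E d → ℂ)) :
    ∃ C : ℝ, 0 < C ∧ ∀ (ι : Type) [Fintype ι] (A : ι → Finset (Fin d → ℤ)) (V : ℕ),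
    (∀ i j, i ≠ j → Disjoint (A i) (A j)) → (∀ i, (A i).card ≤ V) →
    ∀ (f₀ f₁ g₀ : 𝓢(E d, ℂ)) (g : Fin d → 𝓢(E d, ℂ)), IsD f₁ g₀ g →
    ∀ t : ℝ, 0 ≤ t → t ≤ 2 →
      ∫⁻ x : E d, (∑ i, ‖sol (psi K (A i)) (𝓕 (f₀ : E d → ℂ)) (𝓕 (f₁ : E d → ℂ)) t x‖ₑ ^
        (2 : ℝ)) ^ (p / 2) ≤ ENNReal.ofReal (C * (V : ℝ) ^ (p / 2 - 1)) *
          ((∫⁻ x : E d, ‖f₀ x‖ₑ ^ p) + (∫⁻ x : E d, ‖g₀ x‖ₑ ^ p) +
            ∑ j, ∫⁻ x : E d, ‖g j x‖ₑ ^ p) := by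
  obtain ⟨C, hC, h1⟩ := sq d p hp K hc
  refine ⟨(((d : ℝ) + 2) ^ (p / 2) * ((d : ℝ) + 2) ^ (p / 2 - 1)) * C, by positivity, ?_⟩
  intro ι _ A V hA hV f₀ f₁ g₀ g hf t h0 h2t
  set P : Fin d ⊕ Bool → ι → E d → ℂ := fun k i x =>
    inv (fun ξ => psi K (A i) ξ * (sym k t ξ * 𝓕 (gen f₀ g₀ g k : E d → ℂ) ξ)) x with hP
  have hPc : ∀ k i, Continuous (P k i) := fun k i =>
    inv_cont _ (psi_int K (A i) _ (sym_int k t h0 h2t (gen f₀ g₀ g k)))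
  have hs : ∀ i x, sol (psi K (A i)) (𝓕 (f₀ : E d → ℂ)) (𝓕 (f₁ : E d → ℂ)) t x = ∑ k, P k i x :=
    fun i x => sol_eq _ K (A i) rfl f₀ f₁ g₀ g (fourier_gen f₁ g₀ g hf) t h0 h2t x
  simp only [hs]
  have hcard : (Finset.univ : Finset (Fin d ⊕ Bool)).card = d + 2 := by simp
  set L : ℝ≥0∞ := ENNReal.ofReal ((d : ℝ) + 2) with hL
  have s1 : ∀ x, (∑ i, ‖∑ k, P k i x‖ₑ ^ (2 : ℝ)) ^ (p / 2) ≤
      ENNReal.ofReal (((d : ℝ) + 2) ^ (p / 2) * ((d : ℝ) + 2) ^ (p / 2 - 1)) *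
        ∑ k, (∑ i, ‖P k i x‖ₑ ^ (2 : ℝ)) ^ (p / 2) := by
    intro x
    have a1 : ∀ i, ‖∑ k, P k i x‖ₑ ^ (2 : ℝ) ≤ ENNReal.ofReal ((d : ℝ) + 2) *
        ∑ k, ‖P k i x‖ₑ ^ (2 : ℝ) := by
      intro i
      have h3 := pow_sum (2 : ℝ) (by norm_num) (Finset.univ : Finset (Fin d ⊕ Bool))
        (fun k => P k i x)
      have e21 : (2 : ℝ) - 1 = 1 := by norm_num
      rw [hcard, e21, Real.rpow_one] at h3
      push_cast at h3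
      exact h3
    have a2 : ∑ i, ‖∑ k, P k i x‖ₑ ^ (2 : ℝ) ≤ ENNReal.ofReal ((d : ℝ) + 2) *
        ∑ k, ∑ i, ‖P k i x‖ₑ ^ (2 : ℝ) := by
      refine (Finset.sum_le_sum fun i _ => a1 i).trans (le_of_eq ?_)
      rw [← Finset.mul_sum, Finset.sum_comm]
    have a3 := ENNReal.rpow_le_rpow a2 (show 0 ≤ p / 2 by linarith)
    refine a3.trans ?_
    rw [ENNReal.mul_rpow_of_nonneg _ _ (by linarith), ENNReal.ofReal_rpow_of_nonneg (by positivity)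
      (by linarith), ENNReal.ofReal_mul (by positivity), mul_assoc]
    gcongr
    have h4 := ENNReal.rpow_sum_le_const_mul_sum_rpow (s := (Finset.univ : Finset (Fin d ⊕ Bool)))
      (f := fun k => ∑ i, ‖P k i x‖ₑ ^ (2 : ℝ)) (p := p / 2) (by linarith)
    rw [hcard] at h4
    refine h4.trans (le_of_eq ?_)
    congr 1
    rw [← ENNReal.ofReal_natCast, ENNReal.ofReal_rpow_of_nonneg (by positivity) (by linarith)]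
    push_cast
    rfl
  have hm : ∀ k, Measurable fun x => (∑ i, ‖P k i x‖ₑ ^ (2 : ℝ)) ^ (p / 2) := fun k =>
    (Finset.measurable_sum _ fun i _ => ((hPc k i).measurable.enorm).pow_const _).pow_const _
  calc ∫⁻ x : E d, (∑ i, ‖∑ k, P k i x‖ₑ ^ (2 : ℝ)) ^ (p / 2)
      ≤ ∫⁻ x : E d, ENNReal.ofReal (((d : ℝ) + 2) ^ (p / 2) * ((d : ℝ) + 2) ^ (p / 2 - 1)) *
        ∑ k, (∑ i, ‖P k i x‖ₑ ^ (2 : ℝ)) ^ (p / 2) := lintegral_mono s1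
    _ = ENNReal.ofReal (((d : ℝ) + 2) ^ (p / 2) * ((d : ℝ) + 2) ^ (p / 2 - 1)) *
        ∑ k, ∫⁻ x : E d, (∑ i, ‖P k i x‖ₑ ^ (2 : ℝ)) ^ (p / 2) := by
        rw [lintegral_const_mul' _ _ ENNReal.ofReal_ne_top, lintegral_finsetSum _ fun k _ => hm k]
    _ ≤ ENNReal.ofReal (((d : ℝ) + 2) ^ (p / 2) * ((d : ℝ) + 2) ^ (p / 2 - 1)) *
        ∑ k, ENNReal.ofReal (C * (V : ℝ) ^ (p / 2 - 1)) *
          ∫⁻ x : E d, ‖(gen f₀ g₀ g k) x‖ₑ ^ p := by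
        gcongr with k _
        exact h1 ι A V hA hV (gen f₀ g₀ g k) t h0 h2t k
    _ = _ := by
        rw [← Finset.mul_sum, Fintype.sum_sum_type, Fintype.sum_bool, ← mul_assoc,
          ← ENNReal.ofReal_mul (by positivity)]
        congr 1
        · congr 1
          ring
        · simp only [gen]
          ring

/-- the mean over the signs -/
theorem rand (d : ℕ) (p : ℝ) (hp : 2 ≤ p) (K : 𝓢(E d, ℂ))
    (hc : HasCompactSupport (K : E d → ℂ)) :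
    ∃ C : ℝ, 0 < C ∧ ∀ (ι : Type) [Fintype ι] [DecidableEq ι] (A : ι → Finset (Fin d → ℤ)) (V : ℕ),
    (∀ i j, i ≠ j → Disjoint (A i) (A j)) → (∀ i, (A i).card ≤ V) →
    ∀ (f₀ f₁ g₀ : 𝓢(E d, ℂ)) (g : Fin d → 𝓢(E d, ℂ)), IsD f₁ g₀ g →
    ∀ t : ℝ, 0 ≤ t → t ≤ 2 →
      (∑ ε : ι → Bool, ∫⁻ x : E d, ‖sol (rnd K A ε) (𝓕 (f₀ : E d → ℂ)) (𝓕 (f₁ : E d → ℂ)) t x‖ₑ
        ^ p) / 2 ^ Fintype.card ι ≤ ENNReal.ofReal (C * (V : ℝ) ^ (p / 2 - 1)) *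
          ((∫⁻ x : E d, ‖f₀ x‖ₑ ^ p) + (∫⁻ x : E d, ‖g₀ x‖ₑ ^ p) +
            ∑ j, ∫⁻ x : E d, ‖g j x‖ₑ ^ p) := by
  obtain ⟨C, hC, h⟩ := fin sq t_khi d p hp K hc
  refine ⟨C, hC, ?_⟩
  intro ι _ _ A V hA hV f₀ f₁ g₀ g hf t h0 h2t
  have h1 := h ι A V hA hV f₀ f₁ g₀ g hf t h0 h2t
  have e : ∀ (ε : ι → Bool) (x : E d), sol (rnd K A ε) (𝓕 (f₀ : E d → ℂ)) (𝓕 (f₁ : E d → ℂ)) t x =
      wave (fun ξ => rnd K A ε ξ * 𝓕 (f₀ : E d → ℂ) ξ) (fun ξ => rnd K A ε ξ *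
        𝓕 (f₁ : E d → ℂ) ξ) t x := by
    intro ε x
    unfold sol wave
    congr 1
    funext ξ
    ring
  simp only [e]
  exact h1

end Pool.Agent.U506.LS
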